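import Pool.Agent.Helper57.SJ.Stmts
import Pool.Agent.Helper93.SI.FR

set_option autoImplicit false

namespace Pool.Agent.Helper98.SJ

open Pool.Agent.Helper57.QZ (Pr)
open Pool.Agent.Helper93.SI (fr_log fr_prime fr_fact fr_le)

theorem fr2_ndvd {z q : ℕ} (hq : q.Prime) (hz : z < q) (a : Pr z → ℕ) :
    ¬ q ∣ ∏ p : Pr z, (p : ℕ) ^ a p := by
  intro h
  obtain ⟨p, _, hp⟩ := (hq.prime.dvd_finsetProd_iff _).1 h
  have h1 : q ∣ (p : ℕ) := hq.dvd_of_dvd_pow hp
  have h2 : q = (p : ℕ) := (Nat.prime_dvd_prime_iff_eq hq (fr_prime p)).1 h1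
  have h3 : (p : ℕ) < z + 1 := Nat.lt_of_mem_primesBelow p.2
  omega

theorem st_FR2 : Pool.Agent.Helper57.SJ.ST_FR2 := by
  classical
  intro z K y q q' k hk hq hq' hzq hzq' hqy hqy' hne0
  set a : Pr z → ℕ := fun p => (k p).toNat with ha
  set b : Pr z → ℕ := fun p => (-k p).toNat with hb
  have hab : ∀ p, k p = (a p : ℤ) - (b p : ℤ) := by
    intro p
    simp only [ha, hb]
    omega
  have haK : ∀ p, a p ≤ K := by
    intro p
    have := abs_le.1 (hk p)
    simp only [ha]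
    omega
  have hbK : ∀ p, b p ≤ K := by
    intro p
    have := abs_le.1 (hk p)
    simp only [hb]
    omega
  set A : ℕ := ∏ p : Pr z, (p : ℕ) ^ a p with hA
  set B : ℕ := ∏ p : Pr z, (p : ℕ) ^ b p with hB
  have hA1 : 1 ≤ A := Finset.one_le_prod' fun p _ => Nat.one_le_pow _ _ (fr_prime p).pos
  have hB1 : 1 ≤ B := Finset.one_le_prod' fun p _ => Nat.one_le_pow _ _ (fr_prime p).pos
  have hne : A * q ≠ B * q' := by
    intro h
    have h1 : q ∣ B * q' := ⟨A, by rw [← h, mul_comm]⟩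
    have h2 : q = q' := by
      rcases (hq.dvd_mul).1 h1 with h3 | h3
      · exact absurd h3 (fr2_ndvd hq hzq b)
      · exact (Nat.prime_dvd_prime_iff_eq hq hq').1 h3
    rw [← h2] at h
    have h4 : A = B := Nat.eq_of_mul_eq_mul_right hq.pos h
    rcases hne0 with h5 | h5
    · apply h5
      funext p
      have h6 := fr_fact a p
      have h7 := fr_fact b p
      rw [← hA, h4, hB, h7] at h6
      rw [hab p, h6, sub_self]
      rfl
    · exact h5 h2
  have hlog : ∀ c : Pr z → ℕ, Real.log ((∏ p : Pr z, (p : ℕ) ^ c p : ℕ) : ℝ) =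
      ∑ p : Pr z, (c p : ℝ) * Real.log ((p : ℕ) : ℝ) := by
    intro c
    rw [Nat.cast_prod, Real.log_prod]
    · apply Finset.sum_congr rfl
      intro p _
      rw [Nat.cast_pow, Real.log_pow]
    · intro p _
      have := (fr_prime p).pos
      positivity
  have hA0 : (A : ℝ) ≠ 0 := by
    have : (0:ℝ) < A := by exact_mod_cast hA1
    exact this.ne'
  have hB0 : (B : ℝ) ≠ 0 := by
    have : (0:ℝ) < B := by exact_mod_cast hB1
    exact this.ne'
  have hq0 : (q : ℝ) ≠ 0 := by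
    have : (0:ℝ) < q := by exact_mod_cast hq.pos
    exact this.ne'
  have hq0' : (q' : ℝ) ≠ 0 := by
    have : (0:ℝ) < q' := by exact_mod_cast hq'.pos
    exact this.ne'
  have hsum : (∑ p : Pr z, (k p : ℝ) * Real.log ((p : ℕ) : ℝ)) + Real.log q - Real.log q' =
      Real.log ((A * q : ℕ) : ℝ) - Real.log ((B * q' : ℕ) : ℝ) := by
    have h1 : ∑ p : Pr z, (k p : ℝ) * Real.log ((p : ℕ) : ℝ) = Real.log A - Real.log B := by
      rw [hA, hB, hlog a, hlog b, ← Finset.sum_sub_distrib]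
      apply Finset.sum_congr rfl
      intro p _
      rw [hab p]
      push_cast
      ring
    rw [h1, Nat.cast_mul, Nat.cast_mul, Real.log_mul hA0 hq0, Real.log_mul hB0 hq0']
    ring
  rw [hsum]
  apply fr_log (Nat.mul_pos hA1 hq.pos) (Nat.mul_pos hB1 hq'.pos) hne
  · have h1 : A * q ≤ 4 ^ (K * z) * y := Nat.mul_le_mul (fr_le a haK) hqy
    exact_mod_cast h1
  · have h1 : B * q' ≤ 4 ^ (K * z) * y := Nat.mul_le_mul (fr_le b hbK) hqy'
    exact_mod_cast h1

end Pool.Agent.Helper98.SJ
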